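import Pool.Agent.H75.OM.TC

/-!
Board omn_modules, row CMB: projections, constants and small gates.
-/

set_option autoImplicit false

namespace Pool.Agent.H80.OM

open Finset Pool.Agent.H6.NB Pool.Agent.H70.OQ Pool.Agent.H70.EH Pool.Agent.H70.EI Pool.Agent.H78.XQ
open Pool.Agent.H75.OM

theorem noAsk_cons (i j : ℕ) (C : Circ) (h : NoAsk C) : NoAsk (Gate.nand i j :: C) := by
  intro g hg
  rcases List.mem_cons.mp hg with rfl | hg
  · exact ⟨i, j, rfl⟩
  · exact h g hg

theorem noAsk_nil : NoAsk [] := fun _ hg => absurd hg List.not_mem_nil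

theorem val_nand (O : List Bool → Bool) (i j : ℕ) (v : List Bool) :
    (Gate.nand i j).val O v = !(v.getD i false && v.getD j false) := rfl

theorem cout_one (O : List Bool → Bool) (g : Gate) (v : List Bool) :
    cout O [g] v = g.val O v := by
  unfold cout crun
  rw [List.foldl_cons, List.foldl_nil, List.drop_left]
  rfl

theorem cout_two (O : List Bool → Bool) (g h : Gate) (v : List Bool) :
    cout O [g, h] v = h.val O (v ++ [g.val O v]) := by
  unfold cout crun
  rw [List.foldl_cons, List.foldl_cons, List.foldl_nil, List.append_assoc, List.drop_left]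
  rfl

theorem getD_len (v : List Bool) (a : Bool) : (v ++ [a]).getD v.length false = a := by
  rw [List.getD_append_right _ _ _ _ le_rfl, Nat.sub_self]
  rfl

theorem pf_CMB : Pool.Agent.H75.OM.T_CMB := by
  refine ⟨?_, ?_, ?_, ?_, ?_, ?_, ?_⟩
  · intro n i
    refine ⟨[Gate.nand i i, Gate.nand n n], noAsk_cons _ _ _ (noAsk_cons _ _ _ noAsk_nil),
      List.cons_ne_nil _ _, le_rfl, ?_⟩
    intro x hx
    rw [cout_two, val_nand, val_nand, ← hx, getD_len, Bool.and_self, Bool.and_self, Bool.not_not]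
  · intro n b
    rcases b with _ | _
    · refine ⟨[Gate.nand n n, Gate.nand n n], noAsk_cons _ _ _ (noAsk_cons _ _ _ noAsk_nil),
        List.cons_ne_nil _ _, le_rfl, ?_⟩
      intro x hx
      rw [cout_two, val_nand, val_nand, ← hx, getD_len, Bool.and_self, Bool.and_self,
        Bool.not_not, List.getD_eq_default _ _ le_rfl]
    · refine ⟨[Gate.nand n n], noAsk_cons _ _ _ noAsk_nil, List.cons_ne_nil _ _,
        by norm_num [csize, Gate.size], ?_⟩
      intro x hx
      rw [cout_one, val_nand, ← hx, List.getD_eq_default _ _ le_rfl]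
      rfl
  · refine ⟨[Gate.nand 0 0], noAsk_cons _ _ _ noAsk_nil, List.cons_ne_nil _ _, le_rfl, ?_⟩
    intro x hx
    rw [cout_one, val_nand, Bool.and_self]
  · refine ⟨[Gate.nand 0 1, Gate.nand 2 2], noAsk_cons _ _ _ (noAsk_cons _ _ _ noAsk_nil),
      List.cons_ne_nil _ _, by decide, ?_⟩
    intro x hx
    match x, hx with
    | [a, b], _ =>
      cases a <;> cases b <;> rfl
  · refine ⟨[Gate.nand 0 0, Gate.nand 1 1, Gate.nand 2 3],
      noAsk_cons _ _ _ (noAsk_cons _ _ _ (noAsk_cons _ _ _ noAsk_nil)),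
      List.cons_ne_nil _ _, by decide, ?_⟩
    intro x hx
    match x, hx with
    | [a, b], _ =>
      cases a <;> cases b <;> rfl
  · refine ⟨[Gate.nand 0 1, Gate.nand 0 2, Gate.nand 1 2, Gate.nand 3 4],
      noAsk_cons _ _ _ (noAsk_cons _ _ _ (noAsk_cons _ _ _ (noAsk_cons _ _ _ noAsk_nil))),
      List.cons_ne_nil _ _, by decide, ?_⟩
    intro x hx
    match x, hx with
    | [a, b], _ =>
      cases a <;> cases b <;> rfl
  · refine ⟨[Gate.nand 0 0, Gate.nand 0 1, Gate.nand 3 2, Gate.nand 4 5],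
      noAsk_cons _ _ _ (noAsk_cons _ _ _ (noAsk_cons _ _ _ (noAsk_cons _ _ _ noAsk_nil))),
      List.cons_ne_nil _ _, by decide, ?_⟩
    intro x hx
    match x, hx with
    | [a, b, c], _ =>
      cases a <;> cases b <;> cases c <;> rfl

end Pool.Agent.H80.OM
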